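import Pool.Agent.J6H58.MC.Stm2
import Pool.Agent.J6H81.BC.Tr

/-!
# Translation of proofs into the language with nine additional predicate symbols
-/

set_option autoImplicit false

namespace Pool.Agent.J6H80.MC

open Pool.Agent.TH672 (Fm Str digits LogK ReplK Sw)
open Pool.Agent.TH636.BC (Fml IsProof Step Proves code Arith robinson str strs)
open Pool.Agent.J6H49.BC (WB InL sz sz_eq sz_op sz_imp sz_all XX)
open Pool.Agent.J6H81.BC (inL_WB inL_XX inL_arith)
open Pool.Agent.J6H58.MC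
open Pool.Agent.TH197.J1545 (strs_cons)

/-- Replace the formulas `R i a b c d` with `i ≥ 9` by `a = b`. -/
def trQ : Fml → Fml
  | .op i a b c d => if i < 9 then .op i a b c d else .eq a b
  | .imp φ ψ => .imp (trQ φ) (trQ ψ)
  | .all x φ => .all x (trQ φ)
  | φ => φ

theorem inQ_trQ : ∀ φ : Fml, InQ (trQ φ)
  | .bot => trivial
  | .eq _ _ => trivial
  | .zero _ => trivial
  | .succ _ _ => trivial
  | .add _ _ _ => trivial
  | .mul _ _ _ => trivial
  | .op i a b c d => by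
      unfold trQ
      split_ifs with h
      · exact h
      · exact trivial
  | .imp φ ψ => ⟨inQ_trQ φ, inQ_trQ ψ⟩
  | .all _ φ => inQ_trQ φ

theorem trQ_eq : ∀ φ : Fml, InQ φ → trQ φ = φ
  | .bot, _ => rfl
  | .eq _ _, _ => rfl
  | .zero _, _ => rfl
  | .succ _ _, _ => rfl
  | .add _ _ _, _ => rfl
  | .mul _ _ _, _ => rfl
  | .op i a b c d, h => by
      unfold trQ
      exact if_pos h
  | .imp φ ψ, h => by
      unfold trQ
      rw [trQ_eq φ h.1, trQ_eq ψ h.2]
  | .all _ φ, h => by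
      unfold trQ
      rw [trQ_eq φ h]

theorem sz_trQ : ∀ φ : Fml, sz (trQ φ) ≤ sz φ
  | .bot => le_rfl
  | .eq _ _ => le_rfl
  | .zero _ => le_rfl
  | .succ _ _ => le_rfl
  | .add _ _ _ => le_rfl
  | .mul _ _ _ => le_rfl
  | .op i a b c d => by
      unfold trQ
      split_ifs with h
      · exact le_rfl
      · simp only [sz_eq, sz_op]; omega
  | .imp φ ψ => by
      have h1 := sz_trQ φ
      have h2 := sz_trQ ψ
      unfold trQ
      simp only [sz_imp]; omega
  | .all _ φ => by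
      have h1 := sz_trQ φ
      unfold trQ
      simp only [sz_all]; omega

theorem free_trQ (x : ℕ) : ∀ φ : Fml, (trQ φ).Free x → φ.Free x
  | .bot, h => h
  | .eq _ _, h => h
  | .zero _, h => h
  | .succ _ _, h => h
  | .add _ _ _, h => h
  | .mul _ _ _, h => h
  | .op i a b c d, h => by
      unfold trQ at h
      split_ifs at h
      · exact h
      · rcases h with h | h
        · exact Or.inl h
        · exact Or.inr (Or.inl h)
  | .imp φ ψ, h => h.elim (fun h => Or.inl (free_trQ x φ h)) (fun h => Or.inr (free_trQ x ψ h))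
  | .all _ φ, h => ⟨h.1, free_trQ x φ h.2⟩

theorem subst_trQ (x y : ℕ) : ∀ φ : Fml, trQ (φ.subst x y) = (trQ φ).subst x y
  | .bot => rfl
  | .eq _ _ => rfl
  | .zero _ => rfl
  | .succ _ _ => rfl
  | .add _ _ _ => rfl
  | .mul _ _ _ => rfl
  | .op i a b c d => by
      by_cases h : i < 9
      · simp only [trQ, Fm.subst, h, if_true]
      · simp only [trQ, Fm.subst, h, if_false]
  | .imp φ ψ => by
      simp only [trQ, Fm.subst, subst_trQ x y φ, subst_trQ x y ψ]
  | .all u φ => by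
      by_cases h : u = x
      · simp only [trQ, Fm.subst, h, if_true]
      · simp only [trQ, Fm.subst, h, if_false, subst_trQ x y φ]

theorem freeFor_trQ (x y : ℕ) : ∀ φ : Fml, φ.FreeFor y x → (trQ φ).FreeFor y x
  | .bot, _ => trivial
  | .eq _ _, _ => trivial
  | .zero _, _ => trivial
  | .succ _ _, _ => trivial
  | .add _ _ _, _ => trivial
  | .mul _ _ _, _ => trivial
  | .op i a b c d, _ => by
      unfold trQ
      split_ifs <;> exact trivial
  | .imp φ ψ, h => ⟨freeFor_trQ x y φ h.1, freeFor_trQ x y ψ h.2⟩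
  | .all u φ, h => by
      rcases h with h | h | h
      · exact Or.inl h
      · exact Or.inr (Or.inl fun h' => h (free_trQ x φ h'))
      · exact Or.inr (Or.inr ⟨h.1, freeFor_trQ x y φ h.2⟩)

theorem repl_trQ {x y : ℕ} {φ ψ : Fml} (h : ReplK x y φ ψ) : ReplK x y (trQ φ) (trQ ψ) := by
  cases h with
  | eq h1 h2 => exact .eq h1 h2
  | zero h1 => exact .zero h1
  | succ h1 h2 => exact .succ h1 h2
  | add h1 h2 h3 => exact .add h1 h2 h3
  | mul h1 h2 h3 => exact .mul h1 h2 h3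
  | op h1 h2 h3 h4 =>
    unfold trQ
    split_ifs
    · exact .op h1 h2 h3 h4
    · exact .eq h1 h2

theorem logK_trQ {φ : Fml} (h : LogK φ) : LogK (trQ φ) := by
  cases h with
  | k φ ψ => exact .k _ _
  | s φ ψ χ => exact .s _ _ _
  | dn φ => exact .dn _
  | inst x y φ h =>
    have h1 : LogK ((Fm.all x (trQ φ)).imp ((trQ φ).subst x y)) := .inst x y _ (freeFor_trQ x y φ h)
    rw [← subst_trQ] at h1
    exact h1
  | dist x φ ψ h => exact .dist x _ _ fun h' => h (free_trQ x φ h')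
  | refl x => exact .refl x
  | repl x y φ ψ h => exact .repl x y _ _ (repl_trQ h)

theorem isProof_trQ {Γ : List Fml} (hΓ : ∀ φ ∈ Γ, InQ φ) :
    ∀ π : List Fml, IsProof Γ π → IsProof Γ (π.map trQ)
  | [], _ => trivial
  | φ :: π, h => by
      refine ⟨isProof_trQ hΓ π h.1, ?_⟩
      rcases h.2 with h1 | h1 | ⟨ψ, h1, h2⟩ | ⟨ψ, h1, x, rfl⟩
      · left
        rw [trQ_eq φ (hΓ φ h1)]
        exact h1
      · exact Or.inr (Or.inl (logK_trQ h1))
      · exact Or.inr (Or.inr (Or.inl ⟨trQ ψ, List.mem_map_of_mem h1,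
          List.mem_map.mpr ⟨_, h2, rfl⟩⟩))
      · exact Or.inr (Or.inr (Or.inr ⟨trQ ψ, List.mem_map_of_mem h1, x, rfl⟩))

theorem len_trQ : ∀ π : List Fml, (strs (π.map trQ)).length ≤ (strs π).length
  | [] => le_rfl
  | φ :: π => by
      have h1 := len_trQ π
      have h2 := sz_trQ φ
      unfold sz at h2
      rw [List.map_cons, strs_cons, strs_cons, List.length_append, List.length_append]
      omega

/-! ### the language of the theory -/

theorem inQ_inL : ∀ φ : Fml, InL φ → InQ φ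
  | .bot, _ => trivial
  | .eq _ _, _ => trivial
  | .zero _, _ => trivial
  | .succ _ _, _ => trivial
  | .add _ _ _, _ => trivial
  | .mul _ _ _, _ => trivial
  | .op i _ _ _ _, h => by
      have h1 : i < 6 := h
      show i < 9
      omega
  | .imp φ ψ, h => ⟨inQ_inL φ h.1, inQ_inL ψ h.2⟩
  | .all _ φ, h => inQ_inL φ h

theorem inQ_arith (φ : Fml) (h : Arith φ) : InQ φ := inQ_inL φ (inL_arith φ h)

theorem inQ_dig {x : ℕ} {b : Bool} {φ : Fml} (h : InQ φ) : InQ (dig x b φ) := by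
  cases b
  · exact ⟨trivial, trivial, h⟩
  · exact ⟨trivial, trivial, trivial, h⟩

theorem inQ_digs {x : ℕ} {φ : Fml} (h : InQ φ) : ∀ σ : List Bool, InQ (σ.foldr (dig x) φ)
  | [] => h
  | _ :: σ => inQ_dig (inQ_digs h σ)

theorem inQ_dnum {x n : ℕ} {φ : Fml} (h : InQ φ) : InQ (dnum x n φ) := ⟨trivial, inQ_digs h _⟩

theorem inQ_Rf (p q r : ℕ) : InQ (Rf p q r) := show 6 < 9 by norm_num

theorem inQ_Ew (p q r : ℕ) : InQ (Ew p q r) := show 7 < 9 by norm_num

theorem inQ_Kw (p q r : ℕ) : InQ (Kw p q r) := show 8 < 9 by norm_num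

theorem inQ_EX : ∀ φ ∈ EX, InQ φ := by
  intro φ h
  simp only [EX, List.mem_cons, List.not_mem_nil, or_false] at h
  rcases h with h | h | h | h | h | h | h | h | h | h | h <;> subst h
  · exact ⟨trivial, trivial, trivial, inQ_Rf _ _ _⟩
  · exact ⟨inQ_Rf _ _ _, trivial, trivial, trivial, inQ_Rf _ _ _⟩
  · exact ⟨inQ_Rf _ _ _, trivial, trivial, inQ_Rf _ _ _⟩
  · exact ⟨trivial, inQ_Rf _ _ _, trivial, inQ_dig trivial⟩
  · exact ⟨trivial, inQ_Rf _ _ _, trivial, trivial, inQ_dig trivial⟩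
  · exact ⟨trivial, trivial, trivial, inQ_digs (inQ_Ew _ _ _) _⟩
  · exact ⟨trivial, inQ_Rf _ _ _, inQ_Ew _ _ _, inQ_digs (inQ_Ew _ _ _) _⟩
  · exact ⟨trivial, inQ_Ew _ _ _, inQ_Ew _ _ _⟩
  · exact ⟨inQ_Ew _ _ _, trivial, inQ_Kw _ _ _⟩
  · exact ⟨inQ_Kw _ _ _, inQ_dig (inQ_dig (inQ_Kw _ _ _))⟩
  · exact ⟨inQ_Kw _ _ _, inQ_dig (inQ_dig (inQ_Kw _ _ _))⟩

theorem inQ_Xi {P : Fml} (hP : Arith P) : InQ (Xi P) := inQ_dnum ⟨inQ_arith P hP, trivial⟩

theorem inQ_AA {P G : Fml} (hP : Num P) (hG : NumG P G) : ∀ φ ∈ AA P G, InQ φ := by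
  intro φ h
  rw [AA, List.mem_cons] at h
  rcases h with h | h
  · subst h
    refine inQ_dnum (φ := rg P G) ?_
    refine ⟨⟨trivial, trivial, trivial, inQ_arith G hG.arith⟩, inQ_Ew _ _ _, inQ_Kw _ _ _,
      inQ_inL _ inL_XX, inQ_Xi hP.arith⟩
  · rw [WF, List.mem_append] at h
    rcases h with h | h
    · exact inQ_inL φ (inL_WB φ h)
    · exact inQ_EX φ h

theorem langQ : LangT := by
  refine ⟨?_, ?_⟩
  · rintro Γ m φ hΓ hφ ⟨π, hπ, hlen⟩
    have h1 := isProof_trQ hΓ _ hπ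
    have h2 := len_trQ (φ :: π)
    rw [List.map_cons, trQ_eq φ hφ] at h1 h2
    refine ⟨π.map trQ, h1, h2.trans hlen, ?_⟩
    intro ψ hψ
    rcases List.mem_cons.1 hψ with rfl | hψ
    · exact hφ
    · obtain ⟨χ, -, rfl⟩ := List.mem_map.1 hψ
      exact inQ_trQ χ
  · intro P G hP hG
    exact ⟨inQ_AA hP hG, fun Γ n => inQ_dnum (inQ_dnum (inQ_dnum ⟨inQ_arith P hP.arith, trivial⟩))⟩

end Pool.Agent.J6H80.MC
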