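import Pool.Agent.J6H58.MC.Stm
import Pool.Agent.J6H77.BC.Cons

/-!
# The axiom `Con_A (2 ^ n)` cannot be used in proofs of length at most `n ^ 2`

A proof that does not open a certain digit layer of the numeral remains correct if the layer is
replaced by a true sentence; the opening of each of the `n` layers needs a long line.
-/

set_option autoImplicit false

namespace Pool.Agent.J6H80.MC

open Pool.Agent.TH672 (Fm varStr num digits LogK ReplK Sw)
open Pool.Agent.TH672.Form (ren)
open Pool.Agent.TH636.BC (Fml Step IsProof str strs Proves code St Ok Agr Eqs Vlt AddS MulS SuccS)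
open Pool.Agent.J6H58.MC
open Pool.Agent.J6H77.BC (len_varStr vlt_mono vlt_len len_mem ok_zero)
open Pool.Agent.TH197.J1545 (strs_cons subst_id digits_num)

/-! ### Lengths -/

/-- the length of the string -/
def len (φ : Fml) : ℕ := (str φ).length

theorem len_imp (φ ψ : Fml) : len (.imp φ ψ) = 4 + len φ + len ψ := by
  simp only [len, str, List.length_append, List.length_cons, List.length_nil]

theorem len_all (x : ℕ) (φ : Fml) : len (.all x φ) = 4 + (x + 1) + len φ := by
  simp only [len, str, List.length_append, List.length_cons, List.length_nil, len_varStr]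

theorem len_pos (φ : Fml) : 1 ≤ len φ := by
  cases φ <;> simp [len, str]

theorem ren_le (y u : ℕ) : u ≤ ren 0 y u := by
  unfold ren
  split_ifs <;> omega

theorem len_subst (y : ℕ) : ∀ φ : Fml, len φ ≤ len (φ.subst 0 y) := by
  intro φ
  induction φ with
  | bot => exact le_rfl
  | eq u v =>
    have h1 := ren_le y u
    have h2 := ren_le y v
    simp only [len, str, Fm.subst, List.length_append, List.length_cons, List.length_nil, len_varStr]
    omega
  | zero u =>
    have h1 := ren_le y u
    simp only [len, str, Fm.subst, List.length_append, List.length_cons, List.length_nil, len_varStr]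
    omega
  | succ u v =>
    have h1 := ren_le y u
    have h2 := ren_le y v
    simp only [len, str, Fm.subst, List.length_append, List.length_cons, List.length_nil, len_varStr]
    omega
  | add u v w =>
    have h1 := ren_le y u
    have h2 := ren_le y v
    have h3 := ren_le y w
    simp only [len, str, Fm.subst, List.length_append, List.length_cons, List.length_nil, len_varStr]
    omega
  | mul u v w =>
    have h1 := ren_le y u
    have h2 := ren_le y v
    have h3 := ren_le y w
    simp only [len, str, Fm.subst, List.length_append, List.length_cons, List.length_nil, len_varStr]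
    omega
  | op i a b c d =>
    have h1 := ren_le y a
    have h2 := ren_le y b
    have h3 := ren_le y c
    have h4 := ren_le y d
    simp only [len, str, Fm.subst, List.length_append, List.length_cons, List.length_nil, len_varStr]
    omega
  | imp φ ψ ih ih' =>
    simp only [Fm.subst, len_imp]
    omega
  | all u φ ih =>
    simp only [Fm.subst]
    split_ifs
    · exact le_rfl
    · simp only [len_all]
      omega

/-- the lengths of different lines -/
theorem sum_len {J : Finset ℕ} {f : ℕ → Fml} {L : List Fml} (hf : ∀ i ∈ J, ∀ j ∈ J, f i = f j → i = j)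
    (hL : ∀ j ∈ J, f j ∈ L) : ∑ j ∈ J, len (f j) ≤ (strs L).length := by
  classical
  have h1 : ∑ j ∈ J, len (f j) = ∑ ψ ∈ J.image f, len ψ := by
    rw [Finset.sum_image]
    intro i hi j hj h
    exact hf i hi j hj h
  have h2 : ∑ ψ ∈ J.image f, len ψ ≤ ∑ ψ ∈ L.toFinset, len ψ := by
    apply Finset.sum_le_sum_of_subset
    intro ψ hψ
    rw [Finset.mem_image] at hψ
    obtain ⟨j, hj, rfl⟩ := hψ
    exact List.mem_toFinset.2 (hL j hj)
  have h3 : ∑ ψ ∈ L.toFinset, len ψ ≤ (L.map len).sum := by
    rw [Finset.sum_list_map_count]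
    apply Finset.sum_le_sum
    intro ψ hψ
    have h4 : 1 ≤ L.count ψ := List.one_le_count_iff.2 (List.mem_toFinset.1 hψ)
    rw [smul_eq_mul]
    exact Nat.le_mul_of_pos_left _ h4
  have h5 : (L.map len).sum = (strs L).length := by
    unfold strs
    rw [List.length_flatMap]
    rfl
  rw [h1, ← h5]
  exact h2.trans h3

/-! ### Removing a layer -/

/-- the formula `∀ x φ` is `∀ v₀ (a + b = v₀ → K)` -/
def Fam (K : Fml) (x : ℕ) (φ : Fml) : Prop := x = 0 ∧ ∃ a b, φ = .imp (.add a b 0) K

open Classical in
/-- replace the subformulas `∀ v₀ (a + b = v₀ → K)` by a true sentence -/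
noncomputable def cut (K : Fml) : Fml → Fml
  | .imp φ ψ => .imp (cut K φ) (cut K ψ)
  | .all x φ => if Fam K x φ then .imp .bot .bot else .all x (cut K φ)
  | φ => φ

theorem cut_imp (K φ ψ : Fml) : cut K (.imp φ ψ) = .imp (cut K φ) (cut K ψ) := by
  rw [cut]

theorem cut_pos {K : Fml} {x : ℕ} {φ : Fml} (h : Fam K x φ) : cut K (.all x φ) = .imp .bot .bot := by
  rw [cut, if_pos h]

theorem cut_neg {K : Fml} {x : ℕ} {φ : Fml} (h : ¬ Fam K x φ) : cut K (.all x φ) = .all x (cut K φ) := by
  rw [cut, if_neg h]

theorem cut_free {K : Fml} {x : ℕ} : ∀ {φ : Fml}, (cut K φ).Free x → φ.Free x := by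
  intro φ
  induction φ with
  | imp φ ψ ih ih' =>
    intro h
    rw [cut_imp] at h
    exact h.imp ih ih'
  | all u φ ih =>
    intro h
    by_cases hF : Fam K u φ
    · rw [cut_pos hF] at h
      exact (h.elim id id).elim
    · rw [cut_neg hF] at h
      exact ⟨h.1, ih h.2⟩
  | _ => intro h; exact h

theorem cut_vlt {K : Fml} {m : ℕ} : ∀ {φ : Fml}, Vlt m φ → Vlt m (cut K φ) := by
  intro φ
  induction φ with
  | imp φ ψ ih ih' =>
    intro h
    rw [cut_imp]
    exact ⟨ih h.1, ih' h.2⟩
  | all u φ ih =>
    intro h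
    by_cases hF : Fam K u φ
    · rw [cut_pos hF]
      exact ⟨trivial, trivial⟩
    · rw [cut_neg hF]
      exact ⟨h.1, ih h.2⟩
  | _ => intro h; exact h

theorem cut_freeFor {K : Fml} {x y : ℕ} : ∀ {φ : Fml}, φ.FreeFor y x → (cut K φ).FreeFor y x := by
  intro φ
  induction φ with
  | imp φ ψ ih ih' =>
    intro h
    rw [cut_imp]
    exact ⟨ih h.1, ih' h.2⟩
  | all u φ ih =>
    intro h
    by_cases hF : Fam K u φ
    · rw [cut_pos hF]
      exact ⟨trivial, trivial⟩
    · rw [cut_neg hF]
      rcases h with h | h | h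
      · exact Or.inl h
      · exact Or.inr (Or.inl fun h' => h (cut_free h'))
      · exact Or.inr (Or.inr ⟨h.1, ih h.2⟩)
  | _ => intro h; exact h

theorem free_subst {x y : ℕ} : ∀ {φ : Fml}, φ.FreeFor y x → φ.Free x → (φ.subst x y).Free y := by
  have hr : ren x y x = y := by simp [ren]
  intro φ
  induction φ with
  | bot => intro _ h; exact h
  | eq u v =>
    rintro - (rfl | rfl)
    · exact Or.inl hr.symm
    · exact Or.inr hr.symm
  | zero u =>
    rintro - rfl
    exact hr.symm
  | succ u v =>
    rintro - (rfl | rfl)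
    · exact Or.inl hr.symm
    · exact Or.inr hr.symm
  | add u v w =>
    rintro - (rfl | rfl | rfl)
    · exact Or.inl hr.symm
    · exact Or.inr (Or.inl hr.symm)
    · exact Or.inr (Or.inr hr.symm)
  | mul u v w =>
    rintro - (rfl | rfl | rfl)
    · exact Or.inl hr.symm
    · exact Or.inr (Or.inl hr.symm)
    · exact Or.inr (Or.inr hr.symm)
  | op i a b c d =>
    rintro - (rfl | rfl | rfl | rfl)
    · exact Or.inl hr.symm
    · exact Or.inr (Or.inl hr.symm)
    · exact Or.inr (Or.inr (Or.inl hr.symm))
    · exact Or.inr (Or.inr (Or.inr hr.symm))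
  | imp φ ψ ih ih' =>
    rintro h (h' | h')
    · exact Or.inl (ih h.1 h')
    · exact Or.inr (ih' h.2 h')
  | all u φ ih =>
    rintro h ⟨h1, h2⟩
    have e : (Fm.all u φ).subst x y = Fm.all u (φ.subst x y) := by
      simp only [Fm.subst, if_neg (Ne.symm h1)]
    rw [e]
    rcases h with h | h | h
    · exact absurd h.symm h1
    · exact absurd h2 h
    · exact ⟨Ne.symm h.1, ih h.2 h2⟩

theorem fam_subst {K : Fml} (hK : ∀ x, K.Free x → x = 0) {x y u : ℕ} {ψ : Fml} (hux : u ≠ x)
    (huy : u ≠ y) (hf : ψ.FreeFor y x) : Fam K u (ψ.subst x y) ↔ Fam K u ψ := by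
  constructor
  · rintro ⟨rfl, a, b, h⟩
    refine ⟨rfl, ?_⟩
    cases ψ with
    | imp ψ1 ψ2 =>
      simp only [Fm.subst, Fm.imp.injEq] at h
      obtain ⟨h1, h2⟩ := h
      cases ψ1 with
      | add a1 b1 c1 =>
        simp only [Fm.subst, Fm.add.injEq] at h1
        obtain ⟨-, -, h3⟩ := h1
        have h4 : c1 = 0 := by
          unfold ren at h3
          split_ifs at h3
          · exact absurd h3.symm huy
          · exact h3
        have h5 : ¬ ψ2.Free x := by
          intro h6
          have h7 := free_subst hf.2 h6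
          rw [h2] at h7
          exact huy (hK y h7).symm
        rw [subst_id h5] at h2
        exact ⟨a1, b1, by rw [h4, h2]⟩
      | all v φ =>
        exfalso
        simp only [Fm.subst] at h1
        split_ifs at h1
      | _ => simp [Fm.subst] at h1
    | all v φ =>
      exfalso
      simp only [Fm.subst] at h
      split_ifs at h
    | _ => simp [Fm.subst] at h
  · rintro ⟨rfl, a, b, rfl⟩
    refine ⟨rfl, ren x y a, ren x y b, ?_⟩
    have h1 : ¬ K.Free x := fun h => hux (hK x h).symm
    have h2 : ren x y 0 = 0 := by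
      unfold ren
      rw [if_neg hux]
    simp only [Fm.subst, subst_id h1, h2]

theorem cut_subst {K : Fml} (hK : ∀ x, K.Free x → x = 0) {x y : ℕ} :
    ∀ {φ : Fml}, φ.FreeFor y x → cut K (φ.subst x y) = (cut K φ).subst x y := by
  intro φ
  induction φ with
  | imp φ ψ ih ih' =>
    intro h
    simp only [Fm.subst, cut_imp, ih h.1, ih' h.2]
  | all u φ ih =>
    intro h
    by_cases hfr : (Fm.all u φ).Free x
    · have h1 : u ≠ x := Ne.symm hfr.1
      rcases h with h | h | h
      · exact absurd h h1
      · exact absurd hfr.2 h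
      · have e : (Fm.all u φ).subst x y = Fm.all u (φ.subst x y) := by
          simp only [Fm.subst, if_neg h1]
        rw [e]
        by_cases hF : Fam K u φ
        · rw [cut_pos hF, cut_pos ((fam_subst hK h1 h.1 h.2).2 hF)]
          rfl
        · rw [cut_neg hF, cut_neg (fun h' => hF ((fam_subst hK h1 h.1 h.2).1 h')), ih h.2]
          simp only [Fm.subst, if_neg h1]
    · rw [subst_id hfr, subst_id (fun h' => hfr (cut_free h'))]
  | _ => intro h; rfl

/-- formulas that are not longer than `K` are not changed -/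
theorem cut_eq {K : Fml} : ∀ {φ : Fml}, len φ ≤ len K → cut K φ = φ := by
  intro φ
  induction φ with
  | imp φ ψ ih ih' =>
    intro h
    rw [len_imp] at h
    rw [cut_imp, ih (by omega), ih' (by omega)]
  | all u φ ih =>
    intro h
    have hF : ¬ Fam K u φ := by
      rintro ⟨rfl, a, b, rfl⟩
      rw [len_all, len_imp] at h
      omega
    rw [len_all] at h
    rw [cut_neg hF, ih (by omega)]
  | _ => intro h; rfl

/-! ### The calculus -/

/-- `∀ v₀ (a + b = v₀ → K)` is opened -/
def Opn (K l : Fml) : Prop :=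
  ∃ a b y, l = .imp (.all 0 (.imp (.add a b 0) K)) ((Fm.imp (.add a b 0) K).subst 0 y)

theorem repl_cut {K : Fml} {x y : ℕ} {φ ψ : Fml} (h : ReplK x y φ ψ) : cut K φ = φ ∧ cut K ψ = ψ := by
  cases h <;> exact ⟨rfl, rfl⟩

theorem log_cut (h0 : LogQT) {K : Fml} (hK : ∀ x, K.Free x → x = 0) {m : ℕ} {l : Fml} (h : LogK l)
    (hv : Vlt m l) : Opn K l ∨ Tq1 m (cut K l) := by
  have hv' : Vlt m (cut K l) := cut_vlt hv
  cases h with
  | k φ ψ =>
    right
    simp only [cut_imp] at hv' ⊢
    exact h0 _ _ (LogK.k _ _) hv'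
  | s φ ψ χ =>
    right
    simp only [cut_imp] at hv' ⊢
    exact h0 _ _ (LogK.s _ _ _) hv'
  | dn φ =>
    right
    have e : cut K (φ.neg.neg.imp φ) = (cut K φ).neg.neg.imp (cut K φ) := by
      simp only [Fm.neg, cut_imp]
      rfl
    rw [e] at hv' ⊢
    exact h0 _ _ (LogK.dn _) hv'
  | inst x y φ hf =>
    by_cases hF : Fam K x φ
    · left
      obtain ⟨rfl, a, b, rfl⟩ := hF
      exact ⟨a, b, y, rfl⟩
    · right
      rw [cut_imp, cut_neg hF, cut_subst hK hf] at hv' ⊢
      exact h0 _ _ (LogK.inst _ _ _ (cut_freeFor hf)) hv'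
  | dist x φ ψ hf =>
    right
    have hF : ¬ Fam K x (φ.imp ψ) := by
      rintro ⟨rfl, a, b, e⟩
      simp only [Fm.imp.injEq] at e
      obtain ⟨rfl, -⟩ := e
      exact hf (Or.inr (Or.inr rfl))
    rw [cut_imp, cut_imp, cut_neg hF, cut_imp] at hv' ⊢
    by_cases hF2 : Fam K x ψ
    · rw [cut_pos hF2]
      intro s _ _ _ h
      exact h
    · rw [cut_neg hF2] at hv' ⊢
      exact h0 _ _ (LogK.dist _ _ _ (fun h' => hf (cut_free h'))) hv'
  | refl x =>
    right
    exact h0 _ _ (LogK.refl _) hv'
  | repl x y φ ψ hr =>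
    right
    obtain ⟨e1, e2⟩ := repl_cut (K := K) hr
    have e : cut K ((Fm.eq x y).imp (φ.imp ψ)) = (Fm.eq x y).imp (φ.imp ψ) := by
      rw [cut_imp, cut_imp, e1, e2]
      rfl
    rw [e]
    exact h0 _ _ (LogK.repl _ _ _ _ hr) hv

theorem snd_cut (h0 : LogQT) {K : Fml} (hK : ∀ x, K.Free x → x = 0) {m : ℕ} {Γ : List Fml} :
    ∀ {π : List Fml}, IsProof Γ π → (∀ l ∈ π, Vlt m l) → (∀ l ∈ π, ¬ Opn K l) →
      (∀ l ∈ Γ, Vlt m l → Tq1 m (cut K l)) → ∀ l ∈ π, Tq1 m (cut K l) := by
  intro π
  induction π with
  | nil => intro _ _ _ _ l h; simp at h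
  | cons ψ π ih =>
    intro h hv hO hΓ l hl
    obtain ⟨h1, h2⟩ := h
    have ih' := ih h1 (fun χ hχ => hv χ (List.mem_cons_of_mem _ hχ))
      (fun χ hχ => hO χ (List.mem_cons_of_mem _ hχ)) hΓ
    rcases List.mem_cons.mp hl with rfl | hl
    · have hvl := hv l (List.mem_cons_self ..)
      rcases h2 with h2 | h2 | ⟨χ, h3, h4⟩ | ⟨χ, h3, x, rfl⟩
      · exact hΓ _ h2 hvl
      · exact (log_cut h0 hK h2 hvl).resolve_left (hO l (List.mem_cons_self ..))
      · intro s hs
        have h5 := ih' _ h4 s hs
        rw [cut_imp] at h5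
        exact h5 (ih' _ h3 s hs)
      · by_cases hF : Fam K x χ
        · rw [cut_pos hF]
          intro s _ h
          exact h
        · rw [cut_neg hF]
          exact fun s _ t ht _ => ih' _ h3 t ht
    · exact ih' l hl

/-! ### The digits -/

/-- the formula after the addition in a digit -/
def kk (b : Bool) (ψ : Fml) : Fml :=
  if b then .all 1 (.imp (.succ 0 1) (.all 3 (.imp (.succ 1 3) ψ)))
  else .all 3 (.imp (.succ 0 3) ψ)

theorem dig_kk (b : Bool) (ψ : Fml) : dig 3 b ψ = .all 0 (.imp (.add 3 3 0) (kk b ψ)) := by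
  unfold dig kk
  cases b <;> rfl

theorem kk_free {b : Bool} {ψ : Fml} (h : ∀ x, ψ.Free x → x = 3) : ∀ x, (kk b ψ).Free x → x = 0 := by
  intro x hx
  unfold kk at hx
  cases b
  · simp only [Bool.false_eq_true, if_false, Fm.Free] at hx
    rcases hx with ⟨h1, (h2 | h2) | h2⟩
    · exact h2
    · exact absurd h2 h1
    · exact absurd (h x h2) h1
  · simp only [if_true, Fm.Free] at hx
    rcases hx with ⟨h1, (h2 | h2) | ⟨h2, (h3 | h3) | h3⟩⟩
    · exact h2
    · exact absurd h2 h1
    · exact absurd h3 h1
    · exact absurd h3 h2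
    · exact absurd (h x h3) h2

theorem kk_len (b : Bool) (ψ : Fml) : len ψ + 1 ≤ len (kk b ψ) := by
  unfold kk
  cases b
  · simp only [Bool.false_eq_true, if_false, len_all, len_imp]
    omega
  · simp only [if_true, len_all, len_imp]
    omega

theorem dig_len (b : Bool) (ψ : Fml) : len (kk b ψ) + 1 ≤ len (dig 3 b ψ) := by
  rw [dig_kk, len_all, len_imp]
  omega

theorem dig_free {x y : ℕ} {b : Bool} {ψ : Fml} (h : (dig x b ψ).Free y) : y = x ∨ ψ.Free y := by
  unfold dig at h
  cases b
  · simp only [Bool.false_eq_true, if_false, Fm.Free] at h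
    tauto
  · simp only [if_true, Fm.Free] at h
    tauto

theorem foldr_free {x y : ℕ} {ψ : Fml} : ∀ {ds : List Bool}, (ds.foldr (dig x) ψ).Free y → y = x ∨ ψ.Free y := by
  intro ds
  induction ds with
  | nil => intro h; exact Or.inr h
  | cons b ds ih =>
    intro h
    rcases dig_free h with h | h
    · exact Or.inl h
    · exact ih h

theorem dnum_free {x n y : ℕ} {ψ : Fml} (h : (dnum x n ψ).Free y) : y ≠ x ∧ ψ.Free y := by
  unfold dnum at h
  obtain ⟨h1, h2⟩ := h
  refine ⟨h1, ?_⟩
  rcases h2 with h2 | h2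
  · exact absurd h2 h1
  · exact (foldr_free h2).resolve_left h1

theorem digx_len (x : ℕ) (b : Bool) (ψ : Fml) : len ψ + 1 ≤ len (dig x b ψ) := by
  unfold dig
  cases b
  · simp only [Bool.false_eq_true, if_false, len_all, len_imp]
    omega
  · simp only [if_true, len_all, len_imp]
    omega

theorem foldr_len (x : ℕ) (ψ : Fml) : ∀ ds : List Bool, len ψ + ds.length ≤ len (ds.foldr (dig x) ψ) := by
  intro ds
  induction ds with
  | nil => exact le_rfl
  | cons b ds ih =>
    have h := digx_len x b (ds.foldr (dig x) ψ)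
    rw [List.foldr_cons, List.length_cons]
    omega

theorem dnum_len (x n : ℕ) (ψ : Fml) : (digits n).length ≤ len (dnum x n ψ) := by
  unfold dnum
  have h := foldr_len x ψ (digits n)
  rw [len_all, len_imp]
  omega

/-- the truth of the axiom with a removed layer -/
theorem tq_cut (m : ℕ) (Z : Fml) (b : Bool) (l2 : List Bool) : ∀ l1 : List Bool,
    Tq1 m (cut (kk b (l2.foldr (dig 3) Z)) ((l1 ++ b :: l2).foldr (dig 3) Z)) := by
  set K := kk b (l2.foldr (dig 3) Z) with hK
  intro l1
  induction l1 with
  | nil =>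
    rw [List.nil_append, List.foldr_cons, dig_kk, ← hK, cut_pos ⟨rfl, 3, 3, rfl⟩]
    intro s _ h
    exact h
  | cons c l1 ih =>
    rw [List.cons_append, List.foldr_cons, dig_kk]
    set R := (l1 ++ b :: l2).foldr (dig 3) Z with hR
    by_cases hF : Fam K 0 (.imp (.add 3 3 0) (kk c R))
    · rw [cut_pos hF]
      intro s _ h
      exact h
    · rw [cut_neg hF, cut_imp]
      unfold kk
      cases c
      · simp only [Bool.false_eq_true, if_false]
        have hF2 : ¬ Fam K 3 (.imp (.succ 0 3) R) := by
          rintro ⟨h, -⟩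
          omega
        rw [cut_neg hF2, cut_imp]
        intro s _ t _ _ _ t' ht' _ _
        exact ih t' ht'
      · simp only [if_true]
        have hF2 : ¬ Fam K 1 (.imp (.succ 0 1) (.all 3 (.imp (.succ 1 3) R))) := by
          rintro ⟨h, -⟩
          omega
        have hF3 : ¬ Fam K 3 (.imp (.succ 1 3) R) := by
          rintro ⟨h, -⟩
          omega
        rw [cut_neg hF2, cut_imp, cut_neg hF3, cut_imp]
        intro s _ t _ _ _ t' _ _ _ t'' ht'' _ _
        exact ih t'' ht''

theorem num_rep (k : ℕ) : num (List.replicate k false) = 2 ^ k - 1 := by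
  induction k with
  | zero => rfl
  | succ k ih =>
    have h1 : List.replicate (k + 1) false = List.replicate k false ++ [false] := List.replicate_succ' ..
    rw [h1]
    unfold num at ih ⊢
    rw [List.foldl_append, ih]
    simp only [List.foldl_cons, List.foldl_nil, Bool.false_eq_true, if_false]
    have h2 := Nat.one_le_two_pow (n := k)
    rw [pow_succ]
    omega

theorem len_digits (n : ℕ) (hn : 1 ≤ n) : (digits (2 ^ n)).length = n := by
  obtain ⟨k, rfl⟩ : ∃ k, n = k + 1 := ⟨n - 1, by omega⟩
  have h1 : num (List.replicate k false ++ [true]) = 2 ^ (k + 1) := by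
    have h2 := num_rep k
    unfold num at h2 ⊢
    rw [List.foldl_append, h2]
    simp only [List.foldl_cons, List.foldl_nil, if_true]
    have h3 := Nat.one_le_two_pow (n := k)
    rw [pow_succ]
    omega
  rw [← h1, digits_num]
  simp

/-- the `j`-th layer -/
def lay (Z : Fml) : List Bool → ℕ → Fml
  | [], _ => .bot
  | b :: l, 0 => kk b (l.foldr (dig 3) Z)
  | _ :: l, j + 1 => lay Z l j

theorem lay_spec (Z : Fml) : ∀ (ds : List Bool) (j : ℕ), j < ds.length →
    ∃ l1 b l2, ds = l1 ++ b :: l2 ∧ lay Z ds j = kk b (l2.foldr (dig 3) Z) ∧ l2.length + j + 1 = ds.length := by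
  intro ds
  induction ds with
  | nil => intro j hj; simp at hj
  | cons b l ih =>
    intro j hj
    cases j with
    | zero => exact ⟨[], b, l, rfl, rfl, by simp⟩
    | succ j =>
      rw [List.length_cons] at hj
      obtain ⟨l1, c, l2, h1, h2, h3⟩ := ih j (by omega)
      refine ⟨b :: l1, c, l2, by rw [h1]; rfl, h2, ?_⟩
      rw [List.length_cons]
      omega

theorem lay_lt (Z : Fml) : ∀ (ds : List Bool) (i j : ℕ), i < j → j < ds.length →
    len (lay Z ds j) < len (lay Z ds i) := by
  intro ds
  induction ds with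
  | nil => intro i j _ hj; simp at hj
  | cons b l ih =>
    intro i j hij hj
    rw [List.length_cons] at hj
    cases j with
    | zero => omega
    | succ j =>
      cases i with
      | zero =>
        have h1 : len (lay Z l j) < len (l.foldr (dig 3) Z) := by
          obtain ⟨l1, c, l2, h1, h2, -⟩ := lay_spec Z l j (by omega)
          rw [h2, h1, List.foldr_append, List.foldr_cons]
          have h3 := dig_len c (l2.foldr (dig 3) Z)
          have h4 := foldr_len 3 (dig 3 c (l2.foldr (dig 3) Z)) l1
          omega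
        have h2 := kk_len b (l.foldr (dig 3) Z)
        show len (lay Z l j) < len (kk b (l.foldr (dig 3) Z))
        omega
      | succ i => exact ih i j (by omega) (by omega)

theorem sum_two (n : ℕ) : ∑ j ∈ Finset.range n, 2 * (n - j) = n * (n + 1) := by
  induction n with
  | zero => rfl
  | succ n ih =>
    rw [Finset.sum_range_succ']
    have h1 : ∑ k ∈ Finset.range n, 2 * (n + 1 - (k + 1)) = ∑ j ∈ Finset.range n, 2 * (n - j) := by
      apply Finset.sum_congr rfl
      intro k _
      congr 1
      omega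
    rw [h1, ih]
    ring_nf
    omega

/-- **The axiom cannot be used.** -/
theorem opaq (h0 : LogQT) : OpaqT := by
  intro m n P A hn hmn hP hA
  rintro ⟨π, hπ, hlen⟩
  set Z : Fml := conD P A with hZ
  set ds : List Bool := digits (2 ^ n) with hds
  have hdn : ds.length = n := len_digits n hn
  -- free variables
  have hZf : ∀ x, Z.Free x → x = 3 := by
    intro x hx
    obtain ⟨h1, h2⟩ := dnum_free hx
    obtain ⟨h3, h4⟩ := dnum_free h2
    have h5 : P.Free x := by
      rcases h4 with h4 | h4
      · exact h4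
      · exact h4.elim
    rcases hP x h5 with h6 | h6 | h6
    · exact absurd h6 h1
    · exact h6
    · exact absurd h6 h3
  have hRf : ∀ (l : List Bool) x, (l.foldr (dig 3) Z).Free x → x = 3 := by
    intro l x hx
    rcases foldr_free hx with h | h
    · exact h
    · exact hZf x h
  have hZl : ∀ ψ ∈ A, len ψ ≤ len Z := by
    intro ψ hψ
    refine (len_mem hψ).trans ?_
    have h1 := dnum_len 2 (code A) (dnum 4 (code [Fm.bot]) P.neg)
    unfold code at h1
    rw [digits_num] at h1
    exact h1
  have hvl : ∀ l ∈ Fm.bot :: π, Vlt m l := fun l hl => vlt_mono ((len_mem hl).trans hlen) (vlt_len l)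
  -- every layer is opened
  have hop : ∀ j < n, ∃ l ∈ Fm.bot :: π, Opn (lay Z ds j) l := by
    intro j hj
    by_contra hcon
    push Not at hcon
    obtain ⟨l1, b, l2, h1, h2, -⟩ := lay_spec Z ds j (by omega)
    rw [h2] at hcon
    have hKf := kk_free (b := b) (hRf l2)
    have hax : ∀ l ∈ conAtD P A (2 ^ n) :: A, Vlt m l → Tq1 m (cut (kk b (l2.foldr (dig 3) Z)) l) := by
      intro l hl hv
      rcases List.mem_cons.1 hl with rfl | hl
      · unfold conAtD dnum
        rw [← hZ, ← hds]
        have hF : ¬ Fam (kk b (l2.foldr (dig 3) Z)) 3 (.imp (.zero 3) (ds.foldr (dig 3) Z)) := by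
          rintro ⟨h, -⟩
          omega
        rw [cut_neg hF, cut_imp]
        intro s _ t ht _ _
        have h3 := tq_cut m Z b l2 l1
        rw [← h1] at h3
        exact h3 t ht
      · rw [cut_eq]
        · exact hA l hl hv
        · have h3 := hZl l hl
          have h4 := kk_len b (l2.foldr (dig 3) Z)
          have h5 := foldr_len 3 Z l2
          omega
    have h3 := snd_cut h0 hKf hπ hvl hcon hax Fm.bot (List.mem_cons_self ..) _ (ok_zero m)
    exact h3
  -- the lengths
  choose! f hf using hop
  have hinj : ∀ i ∈ Finset.range n, ∀ j ∈ Finset.range n, f i = f j → i = j := by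
    intro i hi j hj hij
    rw [Finset.mem_range] at hi hj
    obtain ⟨a, b, y, h1⟩ := (hf i hi).2
    obtain ⟨a', b', y', h2⟩ := (hf j hj).2
    have h3 : lay Z ds i = lay Z ds j := by
      rw [hij, h2] at h1
      simp only [Fm.imp.injEq, Fm.all.injEq] at h1
      exact h1.1.2.2.symm
    by_contra hne
    rcases Nat.lt_or_gt_of_ne hne with h4 | h4
    · have h5 := lay_lt Z ds i j h4 (by omega)
      rw [h3] at h5
      omega
    · have h5 := lay_lt Z ds j i h4 (by omega)
      rw [h3] at h5
      omega
  have hsum := sum_len hinj (fun j hj => (hf j (Finset.mem_range.1 hj)).1)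
  have hbig : ∑ j ∈ Finset.range n, 2 * (n - j) ≤ ∑ j ∈ Finset.range n, len (f j) := by
    apply Finset.sum_le_sum
    intro j hj
    rw [Finset.mem_range] at hj
    obtain ⟨a, b, y, h1⟩ := (hf j hj).2
    obtain ⟨l1, c, l2, -, h2, h3⟩ := lay_spec Z ds j (by omega)
    have h4 : n - j ≤ len (lay Z ds j) := by
      rw [h2]
      have h5 := kk_len c (l2.foldr (dig 3) Z)
      have h6 := foldr_len 3 Z l2
      have h7 := len_pos Z
      omega
    have h8 : len (lay Z ds j) ≤ len ((Fm.imp (.add a b 0) (lay Z ds j)).subst 0 y) := by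
      refine le_trans ?_ (len_subst y _)
      rw [len_imp]
      omega
    rw [h1, len_imp, len_all, len_imp]
    omega
  rw [sum_two] at hbig
  have h9 : n * (n + 1) ≤ n ^ 2 := (hbig.trans hsum).trans (hlen.trans hmn)
  nlinarith

end Pool.Agent.J6H80.MC
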